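import Pool.Agent.Lib.MP_14152d_al.Push

/-! The lamplighter group over the plane with the switch-walk-switch generators has connected
spheres: the connection thickness is bounded. -/

namespace Pool.Agent.Results.MP_14152d_al.ConnectedSpheres
open Pool.Agent.Lamp79

/-- The lamplighter group: pairs `(x, f)` with `f` finitely supported. -/
abbrev G := (ℤ × ℤ) × ((ℤ × ℤ) →₀ ZMod 2)

/-- The product `(x, f) (y, h) = (x + y, f + h (· - x))`. -/
noncomputable def mul (g h : G) : G := (g.1 + h.1, g.2 + h.2.mapDomain fun z => z + g.1)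

/-- The standard generators of the plane lattice. -/
def dirs : Set (ℤ × ℤ) := {(1, 0), (-1, 0), (0, 1), (0, -1)}

/-- The switch-walk-switch generating set. -/
def gens : Set G := {g | ∃ a b : ZMod 2, ∃ s ∈ dirs,
  g = mul (mul (0, Finsupp.single 0 a) (s, 0)) (0, Finsupp.single 0 b)}

/-- Word length: the least number of generators whose product is `g`. -/
noncomputable def len (g : G) : ℕ :=
  sInf {n | ∃ l : List G, l.length = n ∧ (∀ s ∈ l, s ∈ gens) ∧ l.foldl mul (0, 0) = g}

/-- The Cayley graph, with edges between `g` and `g s`. -/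
def cay : SimpleGraph G := SimpleGraph.fromRel fun g h => ∃ s ∈ gens, h = mul g s

/-- The points of the ball of radius `n + r` that lie in an infinite component of the complement
of the ball of radius `n - 1`. -/
def sph (n r : ℕ) : Set G := {g | len g ≤ n + r ∧ ∃ hg : n ≤ len g,
  ((cay.induce {h | n ≤ len h}).connectedComponentMk ⟨g, hg⟩).supp.Infinite}

def toSt (g : G) : St := (g.1, g.2.support)

lemma z2 : ∀ a b : ZMod 2, (a ≠ 0 ↔ b ≠ 0) → a = b := by decide

lemma toSt_inj : Function.Injective toSt := by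
  intro g h hgh
  obtain ⟨h1, h2⟩ := Prod.ext_iff.1 hgh
  refine Prod.ext h1 (Finsupp.ext fun v => z2 _ _ ?_)
  simp only [toSt] at h2
  rw [← Finsupp.mem_support_iff, ← Finsupp.mem_support_iff, h2]

lemma toSt_surj : Function.Surjective toSt := by
  intro s
  refine ⟨(s.1, Finsupp.indicator s.2 fun _ _ => 1), Prod.ext rfl ?_⟩
  ext v
  simp only [toSt, Finsupp.mem_support_iff, Finsupp.indicator_apply]
  split_ifs with h <;> simp [h]

lemma mul_gen (g : G) (a b : ZMod 2) (s : ℤ × ℤ) :
    mul g (mul (mul (0, Finsupp.single 0 a) (s, 0)) (0, Finsupp.single 0 b))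
      = (g.1 + s, g.2 + Finsupp.single g.1 a + Finsupp.single (g.1 + s) b) := by
  simp [mul, Finsupp.mapDomain_add, add_assoc, add_comm s]

lemma rel_iff (g h : G) : (∃ s ∈ gens, h = mul g s) ↔ Step (toSt g) (toSt h) := by
  constructor
  · rintro ⟨_, ⟨a, b, s, hs, rfl⟩, rfl⟩
    rw [mul_gen]
    refine ⟨?_, fun v h1 h2 => ?_⟩
    · simp only [dirs, Set.mem_insert_iff, Set.mem_singleton_iff] at hs
      rcases hs with rfl | rfl | rfl | rfl <;> simp [toSt, d1]
    · simp only [toSt] at h1 h2
      simp [toSt, Ne.symm h1, Ne.symm h2]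
  · rintro ⟨h1, h2⟩
    simp only [toSt] at h1 h2
    have hne : g.1 ≠ h.1 := fun h3 => by rw [h3, d1_self] at h1; omega
    refine ⟨_, ⟨h.2 g.1 - g.2 g.1, h.2 h.1 - g.2 h.1, h.1 - g.1, ?_, rfl⟩, ?_⟩
    · simp only [dirs, Set.mem_insert_iff, Set.mem_singleton_iff, Prod.ext_iff, Prod.fst_sub,
        Prod.snd_sub]
      unfold d1 at h1; omega
    · rw [mul_gen, add_sub_cancel]
      refine Prod.ext rfl (Finsupp.ext fun v => ?_)
      simp only [Finsupp.add_apply, Finsupp.single_apply]
      by_cases a : g.1 = v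
      · subst a; simp [hne.symm]
      by_cases b : h.1 = v
      · subst b; simp [a]
      · simp only [a, b, if_false, add_zero]
        apply z2
        rw [← Finsupp.mem_support_iff, ← Finsupp.mem_support_iff,
          h2 v (Ne.symm a) (Ne.symm b)]

lemma adj_iff (g h : G) : cay.Adj g h ↔ Step (toSt g) (toSt h) := by
  rw [cay, SimpleGraph.fromRel_adj, rel_iff, rel_iff]
  refine ⟨fun h1 => h1.2.elim id Step.symm, fun h1 => ⟨fun h2 => ?_, Or.inl h1⟩⟩
  have := h1.1
  rw [h2, d1_self] at this; omega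

lemma len_eq (g : G) : len g = wl (toSt g) := by
  unfold len wl
  congr 1
  ext n
  constructor
  · rintro ⟨l, rfl, h1, rfl⟩
    induction l using List.reverseRecOn with
    | nil => exact SP.zero
    | append_singleton l s ih =>
      rw [List.foldl_concat, List.length_append, List.length_singleton]
      exact SP.step (ih fun t ht => h1 t (by simp [ht])) ((rel_iff _ _).1 ⟨s, h1 s (by simp), rfl⟩)
  · intro h
    simp only [Set.mem_ofPred_eq] at h ⊢
    generalize ht : toSt g = t at h
    induction h generalizing g with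
    | zero => exact ⟨[], rfl, by simp, toSt_inj (by rw [ht]; rfl)⟩
    | @step n s t _ hs ih =>
      obtain ⟨g0, rfl⟩ := toSt_surj s
      obtain ⟨l, h1, h2, h3⟩ := ih g0 rfl
      obtain ⟨u, hu, rfl⟩ := (rel_iff g0 g).2 (ht ▸ hs)
      refine ⟨l ++ [u], by simp [h1], fun w hw => ?_, by rw [List.foldl_concat, h3]⟩
      rcases List.mem_append.1 hw with hw | hw
      · exact h2 w hw
      · rw [List.mem_singleton.1 hw]; exact hu

lemma reach_iff {U : Set G} {W : St → Prop} (hU : ∀ g, g ∈ U ↔ W (toSt g)) (g h : U) :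
    (cay.induce U).Reachable g h ↔ Con W (toSt g) (toSt h) := by
  constructor
  · rintro ⟨w⟩
    induction w with
    | nil => exact Relation.ReflTransGen.refl
    | @cons a b c hab _ ih =>
      exact (Lamp79.Con.single ((adj_iff _ _).1 hab) ((hU _).1 a.2) ((hU _).1 b.2)).trans ih
  · intro hc
    generalize ht : toSt h = t at hc
    induction hc generalizing h with
    | refl => rw [Subtype.ext (toSt_inj ht)]
    | @tail s t _ hl ih =>
      obtain ⟨g0, rfl⟩ := toSt_surj s
      refine (ih ⟨g0, (hU _).2 hl.2.1⟩ rfl).trans (SimpleGraph.Adj.reachable ?_)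
      exact (adj_iff _ _).2 (ht ▸ hl.1)

lemma mem_sph (n r : ℕ) (g : G) : g ∈ sph n r ↔ Sph n r (toSt g) := by
  have hU : ∀ h : G, h ∈ {h | n ≤ len h} ↔ n ≤ wl (toSt h) := fun h => by
    rw [Set.mem_ofPred_eq, len_eq]
  have key : ∀ hg : n ≤ len g,
      ((cay.induce {h | n ≤ len h}).connectedComponentMk ⟨g, hg⟩).supp.Infinite ↔
        {u | Con (fun s => n ≤ wl s) (toSt g) u}.Infinite := by
    intro hg
    have : {u | Con (fun s => n ≤ wl s) (toSt g) u} = (fun h : {h | n ≤ len h} => toSt h) ''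
        ((cay.induce {h | n ≤ len h}).connectedComponentMk ⟨g, hg⟩).supp := by
      ext u
      simp only [Set.mem_ofPred_eq, Set.mem_image, SimpleGraph.ConnectedComponent.mem_supp_iff,
        SimpleGraph.ConnectedComponent.eq]
      constructor
      · intro hu
        obtain ⟨h, rfl⟩ := toSt_surj u
        have hh : n ≤ len h := by
          rcases Relation.ReflTransGen.cases_tail hu with h1 | ⟨w, -, h1⟩
          · rw [toSt_inj h1]; exact hg
          · exact (hU h).2 h1.2.2
        exact ⟨⟨h, hh⟩, ((reach_iff hU ⟨g, hg⟩ ⟨h, hh⟩).2 hu).symm, rfl⟩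
      · rintro ⟨h, h1, rfl⟩
        exact (reach_iff hU ⟨g, hg⟩ h).1 h1.symm
    rw [this, Set.infinite_image_iff]
    exact fun a _ b _ h => Subtype.ext (toSt_inj h)
  unfold sph Sph
  rw [Set.mem_ofPred_eq, ← len_eq]
  exact and_congr_right fun _ => ⟨fun ⟨hg, h⟩ => ⟨hg, (key hg).1 h⟩, fun ⟨hg, h⟩ => ⟨hg, (key hg).2 h⟩⟩

theorem result : ∃ r : ℕ, ∀ n : ℕ, (cay.induce (sph n r)).Connected := by
  obtain ⟨r, hr⟩ := sph_connected
  refine ⟨r, fun n => ?_⟩
  obtain ⟨b, hb⟩ := toSt_surj (base n)
  have : Nonempty (sph n r) := ⟨⟨b, (mem_sph n r b).2 (hb ▸ (hr n).1)⟩⟩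
  exact ⟨fun g h => (reach_iff (mem_sph n r) g h).2
    ((hr n).2 _ _ ((mem_sph n r g).1 g.2) ((mem_sph n r h).1 h.2))⟩

end Pool.Agent.Results.MP_14152d_al.ConnectedSpheres
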